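import Pool.Agent.Lib.MP_9bef39_co.Final

open Finset
open scoped Classical

namespace Pool.Agent.Results.MP_9bef39_co.AllRationals

open Pool.Agent.Lib.MP_9bef39_co

/-- `ex*(n, H, s)`: the largest number of edges of a graph on `n` vertices with no subgraph
`K_{s,s}` and no induced subgraph isomorphic to `H`. -/
noncomputable def exStar {W : Type} (n : ℕ) (H : SimpleGraph W) (s : ℕ) : ℕ :=
  sSup {m : ℕ | ∃ G : SimpleGraph (Fin n),
    ¬ (completeBipartiteGraph (Fin s) (Fin s)).IsContained G ∧ ¬ H.IsIndContained G ∧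
      G.edgeSet.ncard = m}

theorem bdd {W : Type} (n : ℕ) (H : SimpleGraph W) (s : ℕ) :
    BddAbove {m : ℕ | ∃ G : SimpleGraph (Fin n),
      ¬ (completeBipartiteGraph (Fin s) (Fin s)).IsContained G ∧ ¬ H.IsIndContained G ∧
        G.edgeSet.ncard = m} := by
  refine ⟨(Set.univ : Set (Sym2 (Fin n))).ncard, ?_⟩
  rintro m ⟨G, -, -, rfl⟩
  exact Set.ncard_le_ncard (Set.subset_univ _)

theorem result (q : ℚ) (h1 : 1 < q) (h2 : q < 2) :
    ∃ (h : ℕ) (H : SimpleGraph (Fin h)), H.IsBipartite ∧ H.Connected ∧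
      ∃ s₀ : ℕ, ∀ s : ℕ, s₀ ≤ s → ∃ c C : ℝ, 0 < c ∧ 0 < C ∧ ∃ n₀ : ℕ, ∀ n : ℕ, n₀ ≤ n →
        c * (n : ℝ) ^ (q : ℝ) ≤ (exStar n H s : ℝ) ∧
          (exStar n H s : ℝ) ≤ C * (n : ℝ) ^ (q : ℝ) := by
  obtain ⟨p, d, hpd, hq⟩ : ∃ p d : ℕ, p < d ∧ (q : ℝ) = 1 + (p : ℝ) / d := by
    have hpos : 0 < q - 1 := by linarith
    have hnum : 0 ≤ (q - 1).num := Rat.num_nonneg.mpr hpos.le
    have hcast : (((q - 1).num.toNat : ℕ) : ℚ) / ((q - 1).den : ℚ) = q - 1 := by
      have : (((q - 1).num.toNat : ℕ) : ℚ) = ((q - 1).num : ℚ) := by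
        rw [← Int.cast_natCast, Int.toNat_of_nonneg hnum]
      rw [this, Rat.num_div_den]
    refine ⟨(q - 1).num.toNat, (q - 1).den, ?_, ?_⟩
    · have hd : (0 : ℚ) < (q - 1).den := by exact_mod_cast (q - 1).den_pos
      have : (((q - 1).num.toNat : ℕ) : ℚ) < (q - 1).den := by
        rw [← div_lt_one hd, hcast]; linarith
      exact_mod_cast this
    · have : (((((q - 1).num.toNat : ℕ) : ℚ) / ((q - 1).den : ℚ) : ℚ) : ℝ) = ((q - 1 : ℚ) : ℝ) := by
        rw [hcast]
      push_cast at this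
      linarith
  obtain ⟨u, e, r, hu, hue, hrel, hfam⟩ := exists_family d p hpd
  obtain ⟨P, c, n0, hP, hc, hlow⟩ := lower r u e hu hue
  obtain ⟨B, β, γ, hPow, hRob⟩ := hfam P hP
  have hexp : 2 - (u : ℝ) / e = q := by
    have he : (0 : ℝ) < e := by exact_mod_cast (by omega : 0 < e)
    have hd : (0 : ℝ) < d := by exact_mod_cast (by omega : 0 < d)
    have : ((e : ℝ) - u) * d = p * e := by
      have := congrArg (Nat.cast : ℕ → ℝ) hrel
      push_cast [hue] at this
      exact this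
    rw [hq]
    field_simp
    linarith
  let ι := Fintype.equivFin B.W
  let iso : B.graph ≃g B.graph.map ι.toEmbedding := SimpleGraph.Iso.map ι B.graph
  refine ⟨Fintype.card B.W, B.graph.map ι.toEmbedding, ?_, ?_, Fintype.card B.W, ?_⟩
  · exact B.colorable.of_hom iso.symm.toHom
  · exact iso.connected_iff.mp B.connected
  intro s hs
  obtain ⟨C, hC⟩ := ind_of_rob hRob s
  refine ⟨c / 2, max C 1, by positivity, by positivity, max n0 1, fun n hn => ⟨?_, ?_⟩⟩
  · obtain ⟨G, hG, hnd⟩ := hlow B β γ hPow n ((le_max_left _ _).trans hn)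
    have hle : G.edgeSet.ncard ≤ exStar n (B.graph.map ι.toEmbedding) s := by
      refine le_csSup (bdd _ _ _) ⟨G, fun h => hG ((B.contained_complete hs).trans h),
        fun h => hG (iso.isContained.trans h.isContained), rfl⟩
    rw [hexp, nd_eq] at hnd
    push_cast at hnd
    have : (G.edgeSet.ncard : ℝ) ≤ exStar n (B.graph.map ι.toEmbedding) s := by exact_mod_cast hle
    linarith
  · have hn1 : 1 ≤ n := (le_max_right _ _).trans hn
    have hpow : 0 ≤ (n : ℝ) ^ (q : ℝ) := by positivity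
    unfold exStar
    rcases Set.eq_empty_or_nonempty {m : ℕ | ∃ G : SimpleGraph (Fin n),
      ¬ (completeBipartiteGraph (Fin s) (Fin s)).IsContained G ∧
        ¬ (B.graph.map ι.toEmbedding).IsIndContained G ∧ G.edgeSet.ncard = m} with h | h
    · rw [h]
      simp only [csSup_empty, bot_eq_zero', Nat.cast_zero]
      positivity
    obtain ⟨G, hK, hH, hm⟩ := Nat.sSup_mem h (bdd _ _ _)
    rw [← hm]
    have : Nonempty (Fin n) := ⟨⟨0, hn1⟩⟩
    by_contra hlt
    push Not at hlt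
    apply hH
    refine iso.symm.isIndContained.trans (hC (Fin n) G hK ?_)
    rw [nd_eq, ← hq, Fintype.card_fin]
    push_cast
    have h3 : C * (n : ℝ) ^ (q : ℝ) ≤ max C 1 * (n : ℝ) ^ (q : ℝ) :=
      mul_le_mul_of_nonneg_right (le_max_left _ _) hpow
    have h4 : (0 : ℝ) ≤ G.edgeSet.ncard := Nat.cast_nonneg _
    linarith

end Pool.Agent.Results.MP_9bef39_co.AllRationals
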